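import Mathlib

/-!
Origamis, orbit graphs, local minors.
-/

set_option autoImplicit false

open Equiv

namespace Pool.Agent.V11212.OG

/-- simultaneous conjugacy of pairs of permutations -/
def conjSetoid (n : ℕ) : Setoid (Perm (Fin n) × Perm (Fin n)) where
  r p q := ∃ g : Perm (Fin n), q.1 = g * p.1 * g⁻¹ ∧ q.2 = g * p.2 * g⁻¹
  iseqv := by
    refine ⟨fun p => ⟨1, by simp, by simp⟩, ?_, ?_⟩
    · rintro p q ⟨g, h1, h2⟩
      refine ⟨g⁻¹, ?_, ?_⟩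
      · rw [h1]; group
      · rw [h2]; group
    · rintro p q r ⟨g, h1, h2⟩ ⟨k, h3, h4⟩
      refine ⟨k * g, ?_, ?_⟩
      · rw [h3, h1]; group
      · rw [h4, h2]; group

/-- pairs of permutations of `n` squares, up to simultaneous conjugation -/
def Pairs (n : ℕ) : Type := Quotient (conjSetoid n)

/-- the class of a pair -/
def cls {n : ℕ} (h v : Perm (Fin n)) : Pairs n := Quotient.mk (conjSetoid n) (h, v)

/-- `T (h, v) = (h, v h⁻¹)` -/
def T {n : ℕ} : Pairs n → Pairs n :=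
  Quotient.map (fun p => (p.1, p.2 * p.1⁻¹)) (by
    rintro ⟨h, v⟩ ⟨h', v'⟩ ⟨g, h1, h2⟩
    refine ⟨g, h1, ?_⟩
    simp only at h1 h2 ⊢
    rw [h1, h2]; group)

/-- `S (h, v) = (h v⁻¹, v)` -/
def S {n : ℕ} : Pairs n → Pairs n :=
  Quotient.map (fun p => (p.1 * p.2⁻¹, p.2)) (by
    rintro ⟨h, v⟩ ⟨h', v'⟩ ⟨g, h1, h2⟩
    refine ⟨g, ?_, h2⟩
    simp only at h1 h2 ⊢
    rw [h1, h2]; group)

/-- the inverse of `T` -/
def Ti {n : ℕ} : Pairs n → Pairs n :=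
  Quotient.map (fun p => (p.1, p.2 * p.1)) (by
    rintro ⟨h, v⟩ ⟨h', v'⟩ ⟨g, h1, h2⟩
    refine ⟨g, h1, ?_⟩
    simp only at h1 h2 ⊢
    rw [h1, h2]; group)

/-- the inverse of `S` -/
def Si {n : ℕ} : Pairs n → Pairs n :=
  Quotient.map (fun p => (p.1 * p.2, p.2)) (by
    rintro ⟨h, v⟩ ⟨h', v'⟩ ⟨g, h1, h2⟩
    refine ⟨g, ?_, h2⟩
    simp only at h1 h2 ⊢
    rw [h1, h2]; group)

theorem T_cls {n : ℕ} (h v : Perm (Fin n)) : T (cls h v) = cls h (v * h⁻¹) := rfl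
theorem S_cls {n : ℕ} (h v : Perm (Fin n)) : S (cls h v) = cls (h * v⁻¹) v := rfl
theorem Ti_cls {n : ℕ} (h v : Perm (Fin n)) : Ti (cls h v) = cls h (v * h) := rfl
theorem Si_cls {n : ℕ} (h v : Perm (Fin n)) : Si (cls h v) = cls (h * v) v := rfl

theorem cls_eq {n : ℕ} {h v h' v' : Perm (Fin n)} (g : Perm (Fin n)) (h1 : h' = g * h * g⁻¹)
    (h2 : v' = g * v * g⁻¹) : cls h v = cls h' v' :=
  Quotient.sound ⟨g, h1, h2⟩

theorem exists_rep {n : ℕ} (P : Pairs n) : ∃ h v : Perm (Fin n), P = cls h v := by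
  obtain ⟨⟨h, v⟩, rfl⟩ := Quotient.exists_rep P
  exact ⟨h, v, rfl⟩

theorem T_Ti {n : ℕ} (P : Pairs n) : T (Ti P) = P := by
  obtain ⟨h, v, rfl⟩ := exists_rep P
  rw [Ti_cls, T_cls, mul_inv_cancel_right]

theorem S_Si {n : ℕ} (P : Pairs n) : S (Si P) = P := by
  obtain ⟨h, v, rfl⟩ := exists_rep P
  rw [Si_cls, S_cls, mul_inv_cancel_right]

/-- two classes lie in one orbit of the group generated by `T` and `S` -/
def SameOrbit {n : ℕ} (P Q : Pairs n) : Prop :=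
  Relation.EqvGen (fun A B : Pairs n => B = T A ∨ B = S A) P Q

/-- The orbit graph of the orbit of `O`: vertices are the elements of the orbit, and `P` is joined
to `T P` and to `S P` (loops are dropped). -/
def orbitGraph {n : ℕ} (O : Pairs n) : SimpleGraph {P : Pairs n // SameOrbit O P} where
  Adj P Q := P ≠ Q ∧ (Q.1 = T P.1 ∨ Q.1 = S P.1 ∨ P.1 = T Q.1 ∨ P.1 = S Q.1)
  symm := ⟨by
    rintro P Q ⟨h1, h2⟩
    refine ⟨h1.symm, ?_⟩
    tauto⟩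
  loopless := ⟨fun P h => h.1 rfl⟩

/-- `G` contains an `L`-local `H` minor -/
def HasLocalMinor {W V : Type*} (H : SimpleGraph W) (G : SimpleGraph V) (L : ℕ) : Prop :=
  ∃ B : W → Set V, (∀ x y, x ≠ y → Disjoint (B x) (B y)) ∧
    (∀ x, (B x).Finite ∧ (B x).ncard ≤ L ∧ (G.induce (B x)).Connected) ∧
    ∀ x y, H.Adj x y → ∃ u ∈ B x, ∃ w ∈ B y, G.Adj u w

end Pool.Agent.V11212.OG
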