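import Mathlib
import Pool.Agent.V11212.OG.Def

/-!
A `K_{3,3}` minor with branch sets of two vertices from twelve distinct vertices.
-/

set_option autoImplicit false

open Equiv

namespace Pool.Agent.V11212.OG

/-- the graph `K_{3,3}` -/
abbrev K33 : SimpleGraph (Fin 3 ⊕ Fin 3) := completeBipartiteGraph (Fin 3) (Fin 3)

/-- a criterion for a `2`-local `K_{3,3}` minor -/
theorem minor_of {V : Type*} (G : SimpleGraph V) (X Y : Fin 3 → V × V)
    (hX : ∀ i, (X i).1 = (X i).2 ∨ G.Adj (X i).1 (X i).2)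
    (hY : ∀ i, (Y i).1 = (Y i).2 ∨ G.Adj (Y i).1 (Y i).2)
    (hXX : ∀ i j, i ≠ j → Disjoint ({(X i).1, (X i).2} : Set V) {(X j).1, (X j).2})
    (hYY : ∀ i j, i ≠ j → Disjoint ({(Y i).1, (Y i).2} : Set V) {(Y j).1, (Y j).2})
    (hXY : ∀ i j, Disjoint ({(X i).1, (X i).2} : Set V) {(Y j).1, (Y j).2})
    (hadj : ∀ i j, ∃ u ∈ ({(X i).1, (X i).2} : Set V), ∃ w ∈ ({(Y j).1, (Y j).2} : Set V),
      G.Adj u w) : HasLocalMinor K33 G 2 := by
  have hset : ∀ p : V × V, (p.1 = p.2 ∨ G.Adj p.1 p.2) →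
      (({p.1, p.2} : Set V).Finite ∧ ({p.1, p.2} : Set V).ncard ≤ 2 ∧
        (G.induce ({p.1, p.2} : Set V)).Connected) := by
    rintro ⟨a, b⟩ h
    have hc : ({a, b} : Set V).ncard ≤ 2 := by
      have h1 := Set.ncard_insert_le a ({b} : Set V)
      rw [Set.ncard_singleton] at h1
      exact h1
    refine ⟨Set.toFinite _, hc, ?_⟩
    rcases h with h | h
    · simp only at h
      subst h
      have h1 : Subsingleton (({a, a} : Set V) : Type _) := by
        rw [Set.subsingleton_coe]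
        rintro x (rfl | rfl) y (rfl | rfl) <;> rfl
      have h2 : Nonempty (({a, a} : Set V) : Type _) := ⟨⟨a, Or.inl rfl⟩⟩
      exact SimpleGraph.Connected.of_subsingleton
    · exact SimpleGraph.induce_pair_connected_of_adj h
  refine ⟨fun x => Sum.elim (fun i => ({(X i).1, (X i).2} : Set V))
    (fun j => ({(Y j).1, (Y j).2} : Set V)) x, ?_, ?_, ?_⟩
  · rintro (i | i) (j | j) hij
    · exact hXX i j (fun h => hij (by rw [h]))
    · exact hXY i j
    · exact (hXY j i).symm
    · exact hYY i j (fun h => hij (by rw [h]))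
  · rintro (i | i)
    · exact hset (X i) (hX i)
    · exact hset (Y i) (hY i)
  · rintro (i | i) (j | j) hij
    · simp at hij
    · exact hadj i j
    · obtain ⟨u, hu, w, hw, h⟩ := hadj j i
      exact ⟨w, hw, u, hu, h.symm⟩
    · simp at hij

theorem braid {n : ℕ} (P : Pairs n) : T (Si (T P)) = Si (T (Si P)) := by
  obtain ⟨x, y, rfl⟩ := exists_rep P
  simp only [T_cls, Si_cls]
  congr 1 <;> group

/-- `(h, v) ↦ (h⁻¹, v⁻¹)` -/
def nu {n : ℕ} : Pairs n → Pairs n :=
  Quotient.map (fun p => (p.1⁻¹, p.2⁻¹)) (by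
    rintro ⟨h, v⟩ ⟨h', v'⟩ ⟨g, h1, h2⟩
    refine ⟨g, ?_, ?_⟩
    · simp only at h1 ⊢
      rw [h1]; group
    · simp only at h2 ⊢
      rw [h2]; group)

theorem nu_cls {n : ℕ} (h v : Perm (Fin n)) : nu (cls h v) = cls h⁻¹ v⁻¹ := rfl

theorem nu_T {n : ℕ} (P : Pairs n) : nu (T P) = T (nu P) := by
  obtain ⟨x, y, rfl⟩ := exists_rep P
  simp only [T_cls, nu_cls]
  exact cls_eq x⁻¹ (by group) (by group)

theorem nu_S {n : ℕ} (P : Pairs n) : nu (S P) = S (nu P) := by
  obtain ⟨x, y, rfl⟩ := exists_rep P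
  simp only [S_cls, nu_cls]
  exact cls_eq y⁻¹ (by group) (by group)

theorem T_inj {n : ℕ} {P Q : Pairs n} (h : T P = T Q) : P = Q := by
  have hTi : ∀ P : Pairs n, Ti (T P) = P := by
    intro P
    obtain ⟨x, y, rfl⟩ := exists_rep P
    rw [T_cls, Ti_cls, inv_mul_cancel_right]
  rw [← hTi P, h, hTi Q]

theorem S_inj {n : ℕ} {P Q : Pairs n} (h : S P = S Q) : P = Q := by
  have hSi : ∀ P : Pairs n, Si (S P) = P := by
    intro P
    obtain ⟨x, y, rfl⟩ := exists_rep P
    rw [S_cls, Si_cls, inv_mul_cancel_right]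
  rw [← hSi P, h, hSi Q]

/-- invariance under inversion is a property of orbits -/
theorem nu_orbit {n : ℕ} {O P : Pairs n} (h : SameOrbit O P) : nu O = O ↔ nu P = P := by
  induction h with
  | rel a b hab =>
    rcases hab with rfl | rfl
    · rw [nu_T]
      exact ⟨fun h => by rw [h], fun h => T_inj h⟩
    · rw [nu_S]
      exact ⟨fun h => by rw [h], fun h => S_inj h⟩
  | refl a => rfl
  | symm a b _ ih => exact ih.symm
  | trans a b c _ _ ih1 ih2 => exact ih1.trans ih2

theorem hexagon {n : ℕ} (P : Pairs n) : T (Si (T (Si (T (Si P))))) = nu P := by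
  obtain ⟨x, y, rfl⟩ := exists_rep P
  simp only [T_cls, Si_cls, nu_cls]
  exact cls_eq (x * y)⁻¹ (by group) (by group)

/-- the twelve vertices -/
def verts {n : ℕ} (P : Pairs n) : Fin 12 → Pairs n :=
  ![P, Si P, T (Si P), Si (T (Si P)), T (Si (T (Si P))), Si (T (Si (T (Si P)))),
    T P, Si (T P), Si (Si P), T (Si (Si P)), T (T (Si P)), Si (T (T (Si P)))]

theorem so_T {n : ℕ} {O P : Pairs n} (h : SameOrbit O P) : SameOrbit O (T P) :=
  Relation.EqvGen.trans _ _ _ h (Relation.EqvGen.rel _ _ (Or.inl rfl))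

theorem so_S {n : ℕ} {O P : Pairs n} (h : SameOrbit O P) : SameOrbit O (S P) :=
  Relation.EqvGen.trans _ _ _ h (Relation.EqvGen.rel _ _ (Or.inr rfl))

theorem so_Ti {n : ℕ} {O P : Pairs n} (h : SameOrbit O P) : SameOrbit O (Ti P) :=
  Relation.EqvGen.trans _ _ _ h
    (Relation.EqvGen.symm _ _ (Relation.EqvGen.rel _ _ (Or.inl (T_Ti P).symm)))

theorem so_Si {n : ℕ} {O P : Pairs n} (h : SameOrbit O P) : SameOrbit O (Si P) :=
  Relation.EqvGen.trans _ _ _ h
    (Relation.EqvGen.symm _ _ (Relation.EqvGen.rel _ _ (Or.inr (S_Si P).symm)))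

theorem verts_mem {n : ℕ} {O P : Pairs n} (h : SameOrbit O P) (i : Fin 12) :
    SameOrbit O (verts P i) := by
  fin_cases i
  · exact h
  · exact so_Si h
  · exact so_T (so_Si h)
  · exact so_Si (so_T (so_Si h))
  · exact so_T (so_Si (so_T (so_Si h)))
  · exact so_Si (so_T (so_Si (so_T (so_Si h))))
  · exact so_T h
  · exact so_Si (so_T h)
  · exact so_Si (so_Si h)
  · exact so_T (so_Si (so_Si h))
  · exact so_T (so_T (so_Si h))
  · exact so_Si (so_T (so_T (so_Si h)))

/-- twelve distinct vertices give a local minor -/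
theorem ball_minor {n : ℕ} {O P : Pairs n} (h : SameOrbit O P) (hν : nu O = O)
    (hinj : Function.Injective (verts P)) : HasLocalMinor K33 (orbitGraph O) 2 := by
  have hP : nu P = P := (nu_orbit h).1 hν
  let u : Fin 12 → {P : Pairs n // SameOrbit O P} := fun i => ⟨verts P i, verts_mem h i⟩
  have hu : ∀ i j, i ≠ j → u i ≠ u j := by
    intro i j hij he
    exact hij (hinj (congrArg Subtype.val he))
  have adjT : ∀ i j, i ≠ j → verts P j = T (verts P i) → (orbitGraph O).Adj (u i) (u j) :=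
    fun i j hij he => ⟨hu i j hij, Or.inl he⟩
  have adjS : ∀ i j, i ≠ j → verts P i = S (verts P j) → (orbitGraph O).Adj (u i) (u j) :=
    fun i j hij he => ⟨hu i j hij, Or.inr (Or.inr (Or.inr he))⟩
  have e01 := adjS 0 1 (by decide) (S_Si _).symm
  have e12 := adjT 1 2 (by decide) rfl
  have e23 := adjS 2 3 (by decide) (S_Si _).symm
  have e34 := adjT 3 4 (by decide) rfl
  have e45 := adjS 4 5 (by decide) (S_Si _).symm
  have e50 := adjT 5 0 (by decide) (((hexagon P).trans hP).symm)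
  have e06 := adjT 0 6 (by decide) rfl
  have e67 := adjS 6 7 (by decide) (S_Si _).symm
  have e73 := adjT 7 3 (by decide) (braid P).symm
  have e18 := adjS 1 8 (by decide) (S_Si _).symm
  have e89 := adjT 8 9 (by decide) rfl
  have e94 : (orbitGraph O).Adj (u 9) (u 4) := by
    apply adjS 9 4 (by decide)
    show T (Si (Si P)) = S (T (Si (T (Si P))))
    rw [braid (Si P), S_Si]
  have e2a := adjT 2 10 (by decide) rfl
  have eab := adjS 10 11 (by decide) (S_Si _).symm
  have eb5 : (orbitGraph O).Adj (u 11) (u 5) := by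
    apply adjT 11 5 (by decide)
    exact (braid (T (Si P))).symm
  have hdis : ∀ a b c d : Fin 12, a ≠ c → a ≠ d → b ≠ c → b ≠ d →
      Disjoint ({u a, u b} : Set {P : Pairs n // SameOrbit O P}) {u c, u d} := by
    intro a b c d h1 h2 h3 h4
    rw [Set.disjoint_left]
    rintro x (rfl | rfl) (h | h)
    · exact hu _ _ h1 h
    · exact hu _ _ h2 h
    · exact hu _ _ h3 h
    · exact hu _ _ h4 h
  refine minor_of (orbitGraph O) ![(u 0, u 6), (u 2, u 10), (u 4, u 9)]
    ![(u 1, u 8), (u 3, u 7), (u 5, u 11)] ?_ ?_ ?_ ?_ ?_ ?_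
  · intro i
    right
    fin_cases i
    · exact e06
    · exact e2a
    · exact e94.symm
  · intro i
    right
    fin_cases i
    · exact e18
    · exact e73.symm
    · exact eb5.symm
  · intro i j hij
    fin_cases i <;> fin_cases j <;> first | exact absurd rfl hij | exact hdis _ _ _ _ (by decide) (by decide) (by decide) (by decide)
  · intro i j hij
    fin_cases i <;> fin_cases j <;> first | exact absurd rfl hij | exact hdis _ _ _ _ (by decide) (by decide) (by decide) (by decide)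
  · intro i j
    fin_cases i <;> fin_cases j <;> exact hdis _ _ _ _ (by decide) (by decide) (by decide) (by decide)
  · intro i j
    fin_cases i <;> fin_cases j
    · exact ⟨u 0, Or.inl rfl, u 1, Or.inl rfl, e01⟩
    · exact ⟨u 6, Or.inr rfl, u 7, Or.inr rfl, e67⟩
    · exact ⟨u 0, Or.inl rfl, u 5, Or.inl rfl, e50.symm⟩
    · exact ⟨u 2, Or.inl rfl, u 1, Or.inl rfl, e12.symm⟩
    · exact ⟨u 2, Or.inl rfl, u 3, Or.inl rfl, e23⟩
    · exact ⟨u 10, Or.inr rfl, u 11, Or.inr rfl, eab⟩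
    · exact ⟨u 9, Or.inr rfl, u 8, Or.inr rfl, e89.symm⟩
    · exact ⟨u 4, Or.inl rfl, u 3, Or.inl rfl, e34.symm⟩
    · exact ⟨u 4, Or.inl rfl, u 5, Or.inl rfl, e45⟩

end Pool.Agent.V11212.OG
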