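import Mathlib
import Pool.Agent.V11212.OG.Def

/-!
The L-shaped origamis.
-/

set_option autoImplicit false

open Equiv

namespace Pool.Agent.V11212.OG

/-- squares `0, …, b - 1` form the column, squares `0, b, …, n - 1` form the row -/
def hN (n b x : ℕ) : ℕ := if x = 0 then b else if x < b then x else if x + 1 < n then x + 1 else 0

/-- inverse of `hN` -/
def hN' (n b x : ℕ) : ℕ := if x = 0 then n - 1 else if x < b then x else if x = b then 0 else x - 1

/-- the column -/
def vN (b x : ℕ) : ℕ := if x < b then (if x + 1 < b then x + 1 else 0) else x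

/-- inverse of `vN` -/
def vN' (b x : ℕ) : ℕ := if x < b then (if x = 0 then b - 1 else x - 1) else x

variable {n b : ℕ}

theorem hN'_hN (hb : 2 ≤ b) (hn : b < n) {x : ℕ} (hx : x < n) : hN' n b (hN n b x) = x := by
  unfold hN
  split_ifs <;> unfold hN' <;> split_ifs <;> first | omega | contradiction

theorem hN_hN' (hb : 2 ≤ b) (hn : b < n) {x : ℕ} (hx : x < n) : hN n b (hN' n b x) = x := by
  unfold hN'
  split_ifs <;> unfold hN <;> split_ifs <;> first | omega | contradiction

theorem vN'_vN (hb : 2 ≤ b) {x : ℕ} : vN' b (vN b x) = x := by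
  unfold vN
  split_ifs <;> unfold vN' <;> split_ifs <;> first | omega | contradiction

theorem vN_vN' (hb : 2 ≤ b) {x : ℕ} : vN b (vN' b x) = x := by
  unfold vN'
  split_ifs <;> unfold vN <;> split_ifs <;> first | omega | contradiction

/-- the row permutation -/
def hp (hb : 2 ≤ b) (hn : b < n) : Perm (Fin n) where
  toFun x := ⟨hN n b x.1, by unfold hN; have := x.2; split_ifs <;> omega⟩
  invFun x := ⟨hN' n b x.1, by unfold hN'; have := x.2; split_ifs <;> omega⟩
  left_inv x := Fin.ext (hN'_hN hb hn x.2)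
  right_inv x := Fin.ext (hN_hN' hb hn x.2)

/-- the column permutation -/
def vp (hb : 2 ≤ b) (hn : b < n) : Perm (Fin n) where
  toFun x := ⟨vN b x.1, by unfold vN; have := x.2; split_ifs <;> omega⟩
  invFun x := ⟨vN' b x.1, by unfold vN'; have := x.2; split_ifs <;> omega⟩
  left_inv x := Fin.ext (vN'_vN hb)
  right_inv x := Fin.ext (vN_vN' hb)

variable (hb : 2 ≤ b) (hn : b < n)

theorem hp_val (x : Fin n) : (hp hb hn x).1 = hN n b x.1 := rfl
theorem hp_inv_val (x : Fin n) : ((hp hb hn)⁻¹ x).1 = hN' n b x.1 := rfl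
theorem vp_val (x : Fin n) : (vp hb hn x).1 = vN b x.1 := rfl
theorem vp_inv_val (x : Fin n) : ((vp hb hn)⁻¹ x).1 = vN' b x.1 := rfl

/-- the commutator is a 3-cycle -/
theorem comm_three :
    (hp hb hn * vp hb hn * (hp hb hn)⁻¹ * (vp hb hn)⁻¹).IsThreeCycle := by
  rw [← card_support_eq_three_iff]
  have h : (hp hb hn * vp hb hn * (hp hb hn)⁻¹ * (vp hb hn)⁻¹).support =
      {⟨0, by omega⟩, ⟨1, by omega⟩, ⟨b, hn⟩} := by
    ext x
    rw [Perm.mem_support, ne_eq, Fin.ext_iff, Perm.mul_apply, Perm.mul_apply, Perm.mul_apply,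
      hp_val, vp_val, hp_inv_val, vp_inv_val]
    simp only [Finset.mem_insert, Finset.mem_singleton, Fin.ext_iff]
    have hx := x.2
    generalize x.1 = y at hx
    unfold vN'
    split_ifs <;> unfold hN' <;> split_ifs <;> unfold vN <;> split_ifs <;> unfold hN <;>
      split_ifs <;> first | omega | contradiction
  rw [h, Finset.card_insert_of_notMem, Finset.card_insert_of_notMem, Finset.card_singleton]
  · simp only [Finset.mem_singleton, Fin.ext_iff]
    omega
  · simp only [Finset.mem_insert, Finset.mem_singleton, Fin.ext_iff]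
    omega

/-- the inversion `x ↦ -x` -/
def iN (n b x : ℕ) : ℕ := if x = 0 then 0 else if x < b then b - x else n + b - 1 - x

theorem iN_iN (hb : 2 ≤ b) (hn : b < n) {x : ℕ} (hx : x < n) : iN n b (iN n b x) = x := by
  have key : ∀ y, y = iN n b x → iN n b y = x := by
    intro y hy
    unfold iN at hy ⊢
    split_ifs at hy <;> split_ifs <;> first | omega | contradiction
  exact key _ rfl

theorem iN_lt (hb : 2 ≤ b) (hn : b < n) {x : ℕ} (hx : x < n) : iN n b x < n := by
  unfold iN
  split_ifs <;> first | omega | contradiction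

/-- the hyperelliptic involution -/
def ip (hb : 2 ≤ b) (hn : b < n) : Perm (Fin n) where
  toFun x := ⟨iN n b x.1, iN_lt hb hn x.2⟩
  invFun x := ⟨iN n b x.1, iN_lt hb hn x.2⟩
  left_inv x := Fin.ext (iN_iN hb hn x.2)
  right_inv x := Fin.ext (iN_iN hb hn x.2)

theorem ip_val (x : Fin n) : (ip hb hn x).1 = iN n b x.1 := rfl

theorem ip_inv_val (x : Fin n) : ((ip hb hn)⁻¹ x).1 = iN n b x.1 := rfl

theorem ip_h : (hp hb hn)⁻¹ = ip hb hn * hp hb hn * (ip hb hn)⁻¹ := by
  ext x
  rw [Perm.mul_apply, Perm.mul_apply, hp_inv_val, ip_val, hp_val, ip_inv_val]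
  have hx := x.2
  generalize x.1 = y at hx
  have key : ∀ z, z = iN n b y → hN' n b y = iN n b (hN n b z) := by
    intro z hz
    unfold hN
    unfold iN at hz
    split_ifs at hz <;> split_ifs <;> unfold iN hN' <;> split_ifs <;> first | omega | contradiction
  exact key _ rfl

theorem ip_v : (vp hb hn)⁻¹ = ip hb hn * vp hb hn * (ip hb hn)⁻¹ := by
  ext x
  rw [Perm.mul_apply, Perm.mul_apply, vp_inv_val, ip_val, vp_val, ip_inv_val]
  have hx := x.2
  generalize x.1 = y at hx
  have key : ∀ z, z = iN n b y → vN' b y = iN n b (vN b z) := by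
    intro z hz
    unfold vN
    unfold iN at hz
    split_ifs at hz <;> split_ifs <;> unfold iN vN' <;> split_ifs <;> first | omega | contradiction
  exact key _ rfl

end Pool.Agent.V11212.OG
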