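import Mathlib
import Pool.Agent.V11212.OG.Ell

/-!
The monodromy group of an L-shaped origami.
-/

set_option autoImplicit false

open Equiv

namespace Pool.Agent.V11212.OG

variable {n b : ℕ} (hb : 2 ≤ b) (hn : b < n)

/-- the monodromy group -/
abbrev Mon {n : ℕ} (h v : Perm (Fin n)) : Subgroup (Perm (Fin n)) := Subgroup.closure {h, v}

theorem vp_pow (k : ℕ) (hk : k < b) : (((vp hb hn) ^ k) ⟨0, by omega⟩ : Fin n).1 = k := by
  induction k with
  | zero => rfl
  | succ k ih =>
    rw [pow_succ', Perm.mul_apply, vp_val, ih (by omega)]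
    unfold vN
    split_ifs <;> first | omega | contradiction

theorem hp_pow (k : ℕ) (hk : b + k < n) :
    (((hp hb hn) ^ (k + 1)) ⟨0, by omega⟩ : Fin n).1 = b + k := by
  induction k with
  | zero =>
    rw [pow_succ', pow_zero, mul_one, hp_val]
    simp [hN]
  | succ k ih =>
    rw [pow_succ', Perm.mul_apply, hp_val, ih (by omega)]
    unfold hN
    split_ifs <;> first | omega | contradiction

theorem h_mem : hp hb hn ∈ Mon (hp hb hn) (vp hb hn) :=
  Subgroup.subset_closure (Or.inl rfl)

theorem v_mem : vp hb hn ∈ Mon (hp hb hn) (vp hb hn) :=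
  Subgroup.subset_closure (Or.inr rfl)

theorem exists_col (x : Fin n) (hx : x.1 < b) : ∃ k : ℕ, ((vp hb hn) ^ k) ⟨0, by omega⟩ = x :=
  ⟨x.1, Fin.ext (vp_pow hb hn x.1 hx)⟩

theorem exists_row (x : Fin n) (hx : b ≤ x.1) : ∃ k : ℕ, ((hp hb hn) ^ k) ⟨0, by omega⟩ = x := by
  refine ⟨(x.1 - b) + 1, Fin.ext ?_⟩
  rw [hp_pow hb hn (x.1 - b) (by have := x.2; omega)]
  omega

theorem pretransitive : MulAction.IsPretransitive (Mon (hp hb hn) (vp hb hn)) (Fin n) := by
  have h0 : ∀ x : Fin n, ∃ g : Mon (hp hb hn) (vp hb hn), g • (⟨0, by omega⟩ : Fin n) = x := by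
    intro x
    by_cases hx : x.1 < b
    · obtain ⟨k, hk⟩ := exists_col hb hn x hx
      exact ⟨⟨(vp hb hn) ^ k, Subgroup.pow_mem _ (v_mem hb hn) k⟩, hk⟩
    · obtain ⟨k, hk⟩ := exists_row hb hn x (not_lt.1 hx)
      exact ⟨⟨(hp hb hn) ^ k, Subgroup.pow_mem _ (h_mem hb hn) k⟩, hk⟩
  refine ⟨fun x y => ?_⟩
  obtain ⟨g, hg⟩ := h0 x
  obtain ⟨k, hk⟩ := h0 y
  exact ⟨k * g⁻¹, by rw [mul_smul, ← hg, inv_smul_smul, hk]⟩

theorem preprimitive : MulAction.IsPreprimitive (Mon (hp hb hn) (vp hb hn)) (Fin n) := by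
  have := pretransitive hb hn
  refine MulAction.IsPreprimitive.of_isTrivialBlock_base (⟨0, by omega⟩ : Fin n) ?_
  intro B h0 hB
  rw [MulAction.isBlock_iff_smul_eq_of_mem] at hB
  -- fixing a point of the block
  have hh : ∀ x ∈ B, hp hb hn x = x → ∀ y : Fin n, b ≤ y.1 → y ∈ B := by
    intro x hx hfix y hy
    have h1 := @hB ⟨hp hb hn, h_mem hb hn⟩ x hx (by
      show hp hb hn x ∈ B
      rw [hfix]; exact hx)
    have h2 : ∀ k : ℕ, ((hp hb hn) ^ k) (⟨0, by omega⟩ : Fin n) ∈ B := by
      intro k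
      induction k with
      | zero => exact h0
      | succ k ih =>
        rw [pow_succ', Perm.mul_apply, ← h1]
        exact ⟨_, ih, rfl⟩
    obtain ⟨k, hk⟩ := exists_row hb hn y hy
    rw [← hk]
    exact h2 k
  have hv : ∀ x ∈ B, vp hb hn x = x → ∀ y : Fin n, y.1 < b → y ∈ B := by
    intro x hx hfix y hy
    have h1 := @hB ⟨vp hb hn, v_mem hb hn⟩ x hx (by
      show vp hb hn x ∈ B
      rw [hfix]; exact hx)
    have h2 : ∀ k : ℕ, ((vp hb hn) ^ k) (⟨0, by omega⟩ : Fin n) ∈ B := by
      intro k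
      induction k with
      | zero => exact h0
      | succ k ih =>
        rw [pow_succ', Perm.mul_apply, ← h1]
        exact ⟨_, ih, rfl⟩
    obtain ⟨k, hk⟩ := exists_col hb hn y hy
    rw [← hk]
    exact h2 k
  have hfixh : ∀ x : Fin n, 0 < x.1 → x.1 < b → hp hb hn x = x := by
    intro x h1 h2
    apply Fin.ext
    rw [hp_val]
    unfold hN
    rw [if_neg (by omega), if_pos h2]
  have hfixv : ∀ x : Fin n, b ≤ x.1 → vp hb hn x = x := by
    intro x h1
    apply Fin.ext
    rw [vp_val]
    unfold vN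
    rw [if_neg (by omega)]
  by_cases hne : ∃ x ∈ B, x.1 ≠ 0
  · right
    obtain ⟨x, hx, hx0⟩ := hne
    have hbB : (⟨b, hn⟩ : Fin n) ∈ B := by
      by_cases hxb : x.1 < b
      · exact hh x hx (hfixh x (by omega) hxb) _ le_rfl
      · -- first the column
        have h1 := hv x hx (hfixv x (by omega)) ⟨1, by omega⟩ (by show 1 < b; omega)
        exact hh _ h1 (hfixh _ (by show 0 < 1; omega) (by show 1 < b; omega)) _ le_rfl
    have h1B : (⟨1, by omega⟩ : Fin n) ∈ B := hv _ hbB (hfixv _ le_rfl) _ (by show 1 < b; omega)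
    ext y
    simp only [Set.mem_univ, iff_true]
    by_cases hy : y.1 < b
    · exact hv _ hbB (hfixv _ le_rfl) y hy
    · exact hh _ h1B (hfixh _ (by show 0 < 1; omega) (by show 1 < b; omega)) y (by omega)
  · left
    push Not at hne
    intro x hx y hy
    apply Fin.ext
    rw [hne x hx, hne y hy]

theorem alt_le : alternatingGroup (Fin n) ≤ Mon (hp hb hn) (vp hb hn) := by
  apply Perm.alternatingGroup_le_of_isPreprimitive_of_isThreeCycle_mem (preprimitive hb hn)
    (comm_three hb hn)
  have h1 := h_mem hb hn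
  have h2 := v_mem hb hn
  exact Subgroup.mul_mem _ (Subgroup.mul_mem _ (Subgroup.mul_mem _ h1 h2) (Subgroup.inv_mem _ h1))
    (Subgroup.inv_mem _ h2)

theorem v_cycle : (vp hb hn).IsCycle := by
  refine ⟨⟨0, by omega⟩, ?_, ?_⟩
  · intro h
    have h1 := congrArg Fin.val h
    rw [vp_val] at h1
    simp only [vN] at h1
    rw [if_pos (by omega), if_pos (by omega)] at h1
    omega
  · intro y hy
    have hyb : y.1 < b := by
      by_contra hcon
      apply hy
      apply Fin.ext
      rw [vp_val]
      unfold vN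
      rw [if_neg hcon]
    obtain ⟨k, hk⟩ := exists_col hb hn y hyb
    exact ⟨(k : ℤ), by rw [zpow_natCast]; exact hk⟩

theorem h_cycle : (hp hb hn).IsCycle := by
  refine ⟨⟨0, by omega⟩, ?_, ?_⟩
  · intro h
    have h1 := congrArg Fin.val h
    rw [hp_val] at h1
    unfold hN at h1
    simp only [if_true] at h1
    omega
  · intro y hy
    by_cases hyb : b ≤ y.1
    · obtain ⟨k, hk⟩ := exists_row hb hn y hyb
      exact ⟨(k : ℤ), by rw [zpow_natCast]; exact hk⟩
    · have hy0 : y.1 = 0 := by
        by_contra hcon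
        apply hy
        apply Fin.ext
        rw [hp_val]
        unfold hN
        rw [if_neg hcon, if_pos (by omega)]
      refine ⟨0, ?_⟩
      apply Fin.ext
      simp [hy0]

theorem v_card : (vp hb hn).support.card = b := by
  have h : (vp hb hn).support = Finset.univ.filter (fun x : Fin n => x.1 < b) := by
    ext x
    rw [Perm.mem_support, ne_eq, Fin.ext_iff, vp_val]
    simp only [Finset.mem_filter, Finset.mem_univ, true_and]
    unfold vN
    split_ifs <;> first | omega | contradiction
  rw [h, Fin.card_filter_val_lt]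
  omega

theorem h_card : (hp hb hn).support.card = n - b + 1 := by
  have h : (hp hb hn).support =
      insert (⟨0, by omega⟩ : Fin n) (Finset.univ.filter (fun x : Fin n => ¬ x.1 < b)) := by
    ext x
    rw [Perm.mem_support, ne_eq, Fin.ext_iff, hp_val]
    simp only [Finset.mem_insert, Finset.mem_filter, Finset.mem_univ, true_and, Fin.ext_iff]
    have := x.2
    unfold hN
    split_ifs <;> first | omega | contradiction
  have h2 : (Finset.univ.filter (fun x : Fin n => x.1 < b)).card +
      (Finset.univ.filter (fun x : Fin n => ¬ x.1 < b)).card = n := by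
    have := Finset.card_filter_add_card_filter_not (s := (Finset.univ : Finset (Fin n))) (fun x : Fin n => x.1 < b)
    rw [this, Finset.card_univ, Fintype.card_fin]
  rw [Fin.card_filter_val_lt] at h2
  rw [h, Finset.card_insert_of_notMem]
  · omega
  · simp only [Finset.mem_filter, Finset.mem_univ, true_and]
    omega

theorem h_sign : Perm.sign (hp hb hn) = -(-1) ^ (n - b + 1) := by
  rw [(h_cycle hb hn).sign, h_card]

theorem v_sign : Perm.sign (vp hb hn) = -(-1) ^ b := by
  rw [(v_cycle hb hn).sign, v_card]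

/-- an odd row permutation: the monodromy group is the symmetric group -/
theorem mon_top (h : Perm.sign (hp hb hn) = -1) : Mon (hp hb hn) (vp hb hn) = ⊤ := by
  rw [eq_top_iff]
  intro g _
  rcases Int.units_eq_one_or (Perm.sign g) with hg | hg
  · exact alt_le hb hn (Perm.mem_alternatingGroup.2 hg)
  · have h1 : (hp hb hn)⁻¹ * g ∈ alternatingGroup (Fin n) := by
      rw [Perm.mem_alternatingGroup, Perm.sign_mul, Perm.sign_inv, h, hg]
      rfl
    have h2 := Subgroup.mul_mem _ (h_mem hb hn) (alt_le hb hn h1)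
    rwa [mul_inv_cancel_left] at h2

/-- even permutations: the monodromy group is the alternating group -/
theorem mon_alt (h : Perm.sign (hp hb hn) = 1) (h' : Perm.sign (vp hb hn) = 1) :
    Mon (hp hb hn) (vp hb hn) = alternatingGroup (Fin n) := by
  apply le_antisymm _ (alt_le hb hn)
  rw [Subgroup.closure_le]
  rintro g (rfl | rfl)
  · exact Perm.mem_alternatingGroup.2 h
  · exact Perm.mem_alternatingGroup.2 h'

end Pool.Agent.V11212.OG
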