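import Mathlib
import Pool.Agent.V11212.OG.Minor
import Pool.Agent.V11212.OG.Prim

/-!
Twelve distinct vertices, long columns.
-/

set_option autoImplicit false

open Equiv

namespace Pool.Agent.V11212.OG

/-- few moved points -/
def small {n : ℕ} (w : Perm (Fin n)) : Prop := w.support.card ≤ 5

/-- there is a fixed point -/
def F {n : ℕ} (w : Perm (Fin n)) : Prop := ∃ x, w x = x

theorem small_conj {n : ℕ} (g w : Perm (Fin n)) : small (g * w * g⁻¹) ↔ small w := by
  unfold small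
  rw [Perm.card_support_conj]

theorem F_conj {n : ℕ} (g w : Perm (Fin n)) : F (g * w * g⁻¹) ↔ F w := by
  constructor
  · rintro ⟨x, hx⟩
    refine ⟨g⁻¹ x, ?_⟩
    rw [Perm.mul_apply, Perm.mul_apply] at hx
    rw [← Perm.inv_eq_iff_eq.2 hx.symm]
  · rintro ⟨x, hx⟩
    refine ⟨g x, ?_⟩
    rw [Perm.mul_apply, Perm.mul_apply, show g⁻¹ (g x) = x from Equiv.symm_apply_apply g x, hx]

theorem F_inv {n : ℕ} (w : Perm (Fin n)) : F w⁻¹ ↔ F w := by
  constructor
  · rintro ⟨x, hx⟩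
    exact ⟨x, (Perm.inv_eq_iff_eq.1 hx).symm⟩
  · rintro ⟨x, hx⟩
    exact ⟨x, Perm.inv_eq_iff_eq.2 hx.symm⟩

open Classical in
/-- a numerical invariant of a pair of permutations -/
noncomputable def codeP {n : ℕ} (x y : Perm (Fin n)) : ℕ :=
  if small x then (if F y then 0 else if F (y * x⁻¹) then 1 else if F (y * x⁻¹ * x⁻¹) then 2 else 3)
  else if small y then (if F (x * y) then 4 else 5)
  else if small (x * y⁻¹) then (if F (y * y * x⁻¹) then 6 else 7)
  else if small (y * x) then (if F (x * y * x) then 8 else 9)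
  else if small (x * y⁻¹ * y⁻¹) then 10 else 11

theorem codeP_conj {n : ℕ} (g x y : Perm (Fin n)) :
    codeP (g * x * g⁻¹) (g * y * g⁻¹) = codeP x y := by
  unfold codeP
  rw [show (g * y * g⁻¹) * (g * x * g⁻¹)⁻¹ * (g * x * g⁻¹)⁻¹ = g * (y * x⁻¹ * x⁻¹) * g⁻¹ by group,
    show (g * y * g⁻¹) * (g * x * g⁻¹)⁻¹ = g * (y * x⁻¹) * g⁻¹ by group,
    show (g * x * g⁻¹) * (g * y * g⁻¹)⁻¹ * (g * y * g⁻¹)⁻¹ = g * (x * y⁻¹ * y⁻¹) * g⁻¹ by group,
    show (g * x * g⁻¹) * (g * y * g⁻¹)⁻¹ = g * (x * y⁻¹) * g⁻¹ by group,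
    show (g * y * g⁻¹) * (g * y * g⁻¹) * (g * x * g⁻¹)⁻¹ = g * (y * y * x⁻¹) * g⁻¹ by group,
    show (g * x * g⁻¹) * (g * y * g⁻¹) * (g * x * g⁻¹) = g * (x * y * x) * g⁻¹ by group,
    show (g * x * g⁻¹) * (g * y * g⁻¹) = g * (x * y) * g⁻¹ by group,
    show (g * y * g⁻¹) * (g * x * g⁻¹) = g * (y * x) * g⁻¹ by group]
  have hsm : ∀ w : Perm (Fin n), small (g * w * g⁻¹) = small w := fun w => propext (small_conj g w)
  have hF : ∀ w : Perm (Fin n), F (g * w * g⁻¹) = F w := fun w => propext (F_conj g w)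
  rw [hsm, hF, hF, hF, hsm, hF, hsm, hF, hsm, hF, hsm]

/-- the invariant of a class -/
noncomputable def code {n : ℕ} : Pairs n → ℕ :=
  Quotient.lift (fun p => codeP p.1 p.2) (by
    rintro ⟨h, v⟩ ⟨h', v'⟩ ⟨g, h1, h2⟩
    simp only at h1 h2 ⊢
    rw [h1, h2, codeP_conj])

theorem code_cls {n : ℕ} (x y : Perm (Fin n)) : code (cls x y) = codeP x y := rfl

section

variable {n b : ℕ} (hb : 2 ≤ b) (hn : b < n)

theorem hs {z : ℕ} (hz : z < n) (h1 : 0 < z) (h2 : z < b) : hp hb hn ⟨z, hz⟩ = ⟨z, hz⟩ := by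
  apply Fin.ext
  show hN n b z = z
  unfold hN
  rw [if_neg (by omega), if_pos h2]

theorem his {z : ℕ} (hz : z < n) (h1 : 0 < z) (h2 : z < b) : (hp hb hn)⁻¹ ⟨z, hz⟩ = ⟨z, hz⟩ := by
  apply Fin.ext
  show hN' n b z = z
  unfold hN'
  rw [if_neg (by omega), if_pos h2]

theorem vs {z : ℕ} (hz : z < n) (h1 : z + 1 < b) : vp hb hn ⟨z, hz⟩ = ⟨z + 1, by omega⟩ := by
  apply Fin.ext
  show vN b z = z + 1
  unfold vN
  rw [if_pos (by omega), if_pos h1]

theorem vis {z : ℕ} (hz : z < n) (h1 : 0 < z) (h2 : z < b) :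
    (vp hb hn)⁻¹ ⟨z, hz⟩ = ⟨z - 1, by omega⟩ := by
  apply Fin.ext
  show vN' b z = z - 1
  unfold vN'
  rw [if_pos h2, if_neg (by omega)]

include hn in
theorem not_small (hb12 : 12 ≤ b) (w : Perm (Fin n))
    (h : ∀ z : ℕ, 2 ≤ z → z ≤ 7 → ∀ hz : z < n, w ⟨z, hz⟩ ≠ ⟨z, hz⟩) : ¬ small w := by
  unfold small
  rw [not_le]
  have hlt : ∀ i : Fin 6, i.1 + 2 < n := fun i => by have := i.2; omega
  have h1 : (Finset.univ.image (fun i : Fin 6 => (⟨i.1 + 2, hlt i⟩ : Fin n))) ⊆ w.support := by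
    intro x hx
    rw [Finset.mem_image] at hx
    obtain ⟨i, -, rfl⟩ := hx
    rw [Perm.mem_support]
    exact h _ (by omega) (by omega) _
  have h2 := Finset.card_le_card h1
  rw [Finset.card_image_of_injective, Finset.card_univ, Fintype.card_fin] at h2
  · omega
  · intro i j hij
    have := congrArg Fin.val hij
    simp only at this
    omega

/-- the row permutation moves few points -/
theorem small_h (ha : n ≤ b + 4) : small (hp hb hn) := by
  unfold small
  rw [h_card]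
  omega

theorem small_h_inv (ha : n ≤ b + 4) : small (hp hb hn)⁻¹ := by
  unfold small
  rw [Perm.support_inv, h_card]
  omega

theorem F_v : F (vp hb hn) := by
  refine ⟨⟨b, hn⟩, Fin.ext ?_⟩
  show vN b b = b
  unfold vN
  rw [if_neg (by omega)]

theorem nF1 : ¬ F (vp hb hn * hp hb hn) := by
  rintro ⟨x, hx⟩
  have h1 := congrArg Fin.val hx
  rw [Perm.mul_apply, vp_val, hp_val] at h1
  have hx2 := x.2
  generalize x.1 = y at h1 hx2
  revert h1
  unfold hN
  split_ifs <;> unfold vN <;> split_ifs <;> first | omega | contradiction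

theorem nF2 (ha : b + 3 ≤ n) : ¬ F (vp hb hn * hp hb hn * hp hb hn) := by
  rintro ⟨x, hx⟩
  have h1 := congrArg Fin.val hx
  rw [Perm.mul_apply, Perm.mul_apply, vp_val, hp_val, hp_val] at h1
  have hx2 := x.2
  generalize x.1 = y at h1 hx2
  revert h1
  have key : ∀ z, z = hN n b y → ¬ (vN b (hN n b z) = y) := by
    intro z hz
    unfold hN at hz
    split_ifs at hz <;> unfold hN <;> split_ifs <;> unfold vN <;> split_ifs <;>
      first | omega | contradiction
  exact key _ rfl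

theorem nF3 (ha : b + 3 ≤ n) : ¬ F (vp hb hn * hp hb hn * hp hb hn * hp hb hn) := by
  rintro ⟨x, hx⟩
  have h1 := congrArg Fin.val hx
  rw [Perm.mul_apply, Perm.mul_apply, Perm.mul_apply, vp_val, hp_val, hp_val, hp_val] at h1
  have hx2 := x.2
  generalize x.1 = y at h1 hx2
  revert h1
  have key : ∀ z, z = hN n b y → ∀ t, t = hN n b z → ¬ (vN b (hN n b t) = y) := by
    intro z hz t ht
    unfold hN at hz
    split_ifs at hz <;> unfold hN at ht <;> split_ifs at ht <;> unfold hN <;> split_ifs <;>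
      unfold vN <;> split_ifs <;> first | omega | contradiction
  exact key _ rfl _ rfl

theorem nFm : ¬ F (vp hb hn * (hp hb hn)⁻¹) := by
  rintro ⟨x, hx⟩
  have h1 := congrArg Fin.val hx
  rw [Perm.mul_apply, vp_val, hp_inv_val] at h1
  have hx2 := x.2
  generalize x.1 = y at h1 hx2
  revert h1
  unfold hN'
  split_ifs <;> unfold vN <;> split_ifs <;> first | omega | contradiction

end

end Pool.Agent.V11212.OG
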