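import Mathlib
import Pool.Agent.V11212.OG.Big

/-!
The codes of the twelve vertices.
-/

set_option autoImplicit false
set_option linter.unusedSimpArgs false

open Equiv

namespace Pool.Agent.V11212.OG

variable {n b : ℕ} (hb : 2 ≤ b) (hn : b < n)

theorem ns_v (hb12 : 12 ≤ b) : ¬ small (vp hb hn) := by
  refine not_small hn hb12 _ ?_
  intro z h2 h7 hz
  simp (disch := omega) only [Perm.mul_apply, hs, vs, his, vis, ne_eq, Fin.mk.injEq]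
  omega

theorem ns_vh (hb12 : 12 ≤ b) : ¬ small (vp hb hn * hp hb hn) := by
  refine not_small hn hb12 _ ?_
  intro z h2 h7 hz
  simp (disch := omega) only [Perm.mul_apply, hs, vs, his, vis, ne_eq, Fin.mk.injEq]
  omega

theorem ns_hv (hb12 : 12 ≤ b) : ¬ small (hp hb hn * vp hb hn) := by
  refine not_small hn hb12 _ ?_
  intro z h2 h7 hz
  simp (disch := omega) only [Perm.mul_apply, hs, vs, his, vis, ne_eq, Fin.mk.injEq]
  omega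

theorem ns_hvh (hb12 : 12 ≤ b) : ¬ small (hp hb hn * vp hb hn * hp hb hn) := by
  refine not_small hn hb12 _ ?_
  intro z h2 h7 hz
  simp (disch := omega) only [Perm.mul_apply, hs, vs, his, vis, ne_eq, Fin.mk.injEq]
  omega

theorem ns_hvhvh (hb12 : 12 ≤ b) : ¬ small (hp hb hn * vp hb hn * hp hb hn * vp hb hn * hp hb hn) := by
  refine not_small hn hb12 _ ?_
  intro z h2 h7 hz
  simp (disch := omega) only [Perm.mul_apply, hs, vs, his, vis, ne_eq, Fin.mk.injEq]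
  omega

theorem ns_hhv (hb12 : 12 ≤ b) : ¬ small ((hp hb hn)⁻¹ * (hp hb hn)⁻¹ * (vp hb hn)⁻¹) := by
  refine not_small hn hb12 _ ?_
  intro z h2 h7 hz
  simp (disch := omega) only [Perm.mul_apply, hs, vs, his, vis, ne_eq, Fin.mk.injEq]
  omega

theorem ns_ihvh (hb12 : 12 ≤ b) : ¬ small ((hp hb hn)⁻¹ * (vp hb hn)⁻¹ * (hp hb hn)⁻¹) := by
  refine not_small hn hb12 _ ?_
  intro z h2 h7 hz
  simp (disch := omega) only [Perm.mul_apply, hs, vs, his, vis, ne_eq, Fin.mk.injEq]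
  omega

theorem ns_ihhvh (hb12 : 12 ≤ b) : ¬ small ((hp hb hn)⁻¹ * (hp hb hn)⁻¹ * (vp hb hn)⁻¹ * (hp hb hn)⁻¹) := by
  refine not_small hn hb12 _ ?_
  intro z h2 h7 hz
  simp (disch := omega) only [Perm.mul_apply, hs, vs, his, vis, ne_eq, Fin.mk.injEq]
  omega

theorem ns_vhvhh (hb12 : 12 ≤ b) : ¬ small (vp hb hn * hp hb hn * vp hb hn * hp hb hn * hp hb hn) := by
  refine not_small hn hb12 _ ?_
  intro z h2 h7 hz
  simp (disch := omega) only [Perm.mul_apply, hs, vs, his, vis, ne_eq, Fin.mk.injEq]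
  omega

theorem ns_vhhvhvh (hb12 : 12 ≤ b) : ¬ small (vp hb hn * hp hb hn * (hp hb hn * vp hb hn * hp hb hn * vp hb hn * hp hb hn)) := by
  refine not_small hn hb12 _ ?_
  intro z h2 h7 hz
  simp (disch := omega) only [Perm.mul_apply, hs, vs, his, vis, ne_eq, Fin.mk.injEq]
  omega

theorem ns_hvhvhhvh (hb12 : 12 ≤ b) : ¬ small (hp hb hn * vp hb hn * hp hb hn * vp hb hn * hp hb hn * hp hb hn * vp hb hn * hp hb hn) := by
  refine not_small hn hb12 _ ?_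
  intro z h2 h7 hz
  simp (disch := omega) only [Perm.mul_apply, hs, vs, his, vis, ne_eq, Fin.mk.injEq]
  omega

theorem ns_e4 (hb12 : 12 ≤ b) : ¬ small (hp hb hn * vp hb hn * hp hb hn * vp hb hn * hp hb hn * hp hb hn * vp hb hn * hp hb hn * hp hb hn * vp hb hn * hp hb hn) := by
  refine not_small hn hb12 _ ?_
  intro z h2 h7 hz
  simp (disch := omega) only [Perm.mul_apply, hs, vs, his, vis, ne_eq, Fin.mk.injEq]
  omega

theorem ns_hvhhvhh (hb12 : 12 ≤ b) : ¬ small (hp hb hn * vp hb hn * hp hb hn * hp hb hn * vp hb hn * hp hb hn * hp hb hn) := by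
  refine not_small hn hb12 _ ?_
  intro z h2 h7 hz
  simp (disch := omega) only [Perm.mul_apply, hs, vs, his, vis, ne_eq, Fin.mk.injEq]
  omega

theorem n_hv : ¬ F (hp hb hn * vp hb hn) := by
  rw [show hp hb hn * vp hb hn = hp hb hn * (vp hb hn * hp hb hn) * (hp hb hn)⁻¹ by group, F_conj]
  exact nF1 hb hn

theorem n_hvh (ha : b + 3 ≤ n) : ¬ F (hp hb hn * vp hb hn * hp hb hn) := by
  rw [show hp hb hn * vp hb hn * hp hb hn =
    hp hb hn * (vp hb hn * hp hb hn * hp hb hn) * (hp hb hn)⁻¹ by group, F_conj]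
  exact nF2 hb hn ha

theorem n_ihvh (ha : b + 3 ≤ n) : ¬ F ((hp hb hn)⁻¹ * (vp hb hn)⁻¹ * (hp hb hn)⁻¹) := by
  rw [show (hp hb hn)⁻¹ * (vp hb hn)⁻¹ * (hp hb hn)⁻¹ =
    (hp hb hn * vp hb hn * hp hb hn)⁻¹ by group, F_inv]
  exact n_hvh hb hn ha

theorem n_hivi : ¬ F ((hp hb hn)⁻¹ * (vp hb hn)⁻¹) := by
  rw [show (hp hb hn)⁻¹ * (vp hb hn)⁻¹ = (vp hb hn * hp hb hn)⁻¹ by group, F_inv]
  exact nF1 hb hn

theorem n_3 (ha : b + 3 ≤ n) :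
    ¬ F ((hp hb hn)⁻¹ * (vp hb hn)⁻¹ * (hp hb hn)⁻¹ * (hp hb hn)⁻¹) := by
  rw [show (hp hb hn)⁻¹ * (vp hb hn)⁻¹ * (hp hb hn)⁻¹ * (hp hb hn)⁻¹ =
    ((hp hb hn * hp hb hn) * (vp hb hn * hp hb hn * hp hb hn * hp hb hn) *
      (hp hb hn * hp hb hn)⁻¹)⁻¹ by group, F_inv, F_conj]
  exact nF3 hb hn ha

theorem F_cv : F ((hp hb hn)⁻¹ * (vp hb hn)⁻¹ * hp hb hn) := by
  rw [show (hp hb hn)⁻¹ * (vp hb hn)⁻¹ * hp hb hn =
    (hp hb hn)⁻¹ * (vp hb hn)⁻¹ * ((hp hb hn)⁻¹)⁻¹ by group, F_conj, F_inv]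
  exact F_v hb hn

theorem c0 (ha : n ≤ b + 4) : codeP (hp hb hn) (vp hb hn * hp hb hn) = 1 := by
  unfold codeP
  rw [if_pos (small_h hb hn ha), if_neg (nF1 hb hn),
    show vp hb hn * hp hb hn * (hp hb hn)⁻¹ = vp hb hn by group, if_pos (F_v hb hn)]

theorem c1 (hb12 : 12 ≤ b) (ha : n ≤ b + 4) :
    codeP (hp hb hn * vp hb hn * hp hb hn) (vp hb hn * hp hb hn) = 6 := by
  unfold codeP
  rw [if_neg (ns_hvh hb hn hb12), if_neg (ns_vh hb hn hb12),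
    show hp hb hn * vp hb hn * hp hb hn * (vp hb hn * hp hb hn)⁻¹ = hp hb hn by group,
    if_pos (small_h hb hn ha),
    show vp hb hn * hp hb hn * (vp hb hn * hp hb hn) * (hp hb hn * vp hb hn * hp hb hn)⁻¹ =
      vp hb hn by group, if_pos (F_v hb hn)]

theorem c2 (hb12 : 12 ≤ b) (ha : n ≤ b + 4) :
    codeP (hp hb hn * vp hb hn * hp hb hn) (hp hb hn)⁻¹ = 5 := by
  unfold codeP
  rw [if_neg (ns_hvh hb hn hb12), if_pos (small_h_inv hb hn ha),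
    show hp hb hn * vp hb hn * hp hb hn * (hp hb hn)⁻¹ = hp hb hn * vp hb hn by group,
    if_neg (n_hv hb hn)]

theorem c3 (hb12 : 12 ≤ b) (ha : n ≤ b + 4) :
    codeP (vp hb hn * hp hb hn) (hp hb hn)⁻¹ = 4 := by
  unfold codeP
  rw [if_neg (ns_vh hb hn hb12), if_pos (small_h_inv hb hn ha),
    show vp hb hn * hp hb hn * (hp hb hn)⁻¹ = vp hb hn by group, if_pos (F_v hb hn)]

theorem c4 (hb12 : 12 ≤ b) (ha : n ≤ b + 4) :
    codeP (vp hb hn * hp hb hn) ((hp hb hn)⁻¹ * (hp hb hn)⁻¹ * (vp hb hn)⁻¹) = 8 := by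
  unfold codeP
  rw [if_neg (ns_vh hb hn hb12), if_neg (ns_hhv hb hn hb12),
    show vp hb hn * hp hb hn * ((hp hb hn)⁻¹ * (hp hb hn)⁻¹ * (vp hb hn)⁻¹)⁻¹ =
      vp hb hn * hp hb hn * vp hb hn * hp hb hn * hp hb hn by
        simp only [mul_inv_rev, inv_inv, mul_assoc],
    if_neg (ns_vhvhh hb hn hb12),
    show (hp hb hn)⁻¹ * (hp hb hn)⁻¹ * (vp hb hn)⁻¹ * (vp hb hn * hp hb hn) = (hp hb hn)⁻¹ by group,
    if_pos (small_h_inv hb hn ha),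
    show vp hb hn * hp hb hn * ((hp hb hn)⁻¹ * (hp hb hn)⁻¹ * (vp hb hn)⁻¹) *
      (vp hb hn * hp hb hn) = vp hb hn by group, if_pos (F_v hb hn)]

theorem c5 (ha : n ≤ b + 4) (ha' : b + 3 ≤ n) :
    codeP (hp hb hn)⁻¹ ((hp hb hn)⁻¹ * (vp hb hn)⁻¹ * (hp hb hn)⁻¹) = 2 := by
  unfold codeP
  rw [if_pos (small_h_inv hb hn ha), if_neg (n_ihvh hb hn ha'),
    show (hp hb hn)⁻¹ * (vp hb hn)⁻¹ * (hp hb hn)⁻¹ * ((hp hb hn)⁻¹)⁻¹ =
      (hp hb hn)⁻¹ * (vp hb hn)⁻¹ by group, if_neg (n_hivi hb hn),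
    show (hp hb hn)⁻¹ * (vp hb hn)⁻¹ * ((hp hb hn)⁻¹)⁻¹ =
      (hp hb hn)⁻¹ * (vp hb hn)⁻¹ * hp hb hn by group, if_pos (F_cv hb hn)]

theorem c6 (ha : n ≤ b + 4) : codeP (hp hb hn) (vp hb hn) = 0 := by
  unfold codeP
  rw [if_pos (small_h hb hn ha), if_pos (F_v hb hn)]

theorem c7 (hb12 : 12 ≤ b) (ha : n ≤ b + 4) :
    codeP (hp hb hn * vp hb hn) (vp hb hn) = 7 := by
  unfold codeP
  rw [if_neg (ns_hv hb hn hb12), if_neg (ns_v hb hn hb12),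
    show hp hb hn * vp hb hn * (vp hb hn)⁻¹ = hp hb hn by group, if_pos (small_h hb hn ha),
    show vp hb hn * vp hb hn * (hp hb hn * vp hb hn)⁻¹ = vp hb hn * (hp hb hn)⁻¹ by group,
    if_neg (nFm hb hn)]

theorem c8 (hb12 : 12 ≤ b) (ha : n ≤ b + 4) :
    codeP (hp hb hn * vp hb hn * hp hb hn * vp hb hn * hp hb hn) (vp hb hn * hp hb hn) = 10 := by
  unfold codeP
  rw [if_neg (ns_hvhvh hb hn hb12), if_neg (ns_vh hb hn hb12),
    show hp hb hn * vp hb hn * hp hb hn * vp hb hn * hp hb hn * (vp hb hn * hp hb hn)⁻¹ =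
      hp hb hn * vp hb hn * hp hb hn by group, if_neg (ns_hvh hb hn hb12),
    if_neg (ns_vhhvhvh hb hn hb12),
    show hp hb hn * vp hb hn * hp hb hn * (vp hb hn * hp hb hn)⁻¹ = hp hb hn by group,
    if_pos (small_h hb hn ha)]

theorem c9 (hb12 : 12 ≤ b) :
    codeP (hp hb hn * vp hb hn * hp hb hn * vp hb hn * hp hb hn)
      ((hp hb hn)⁻¹ * (vp hb hn)⁻¹ * (hp hb hn)⁻¹) = 11 := by
  unfold codeP
  rw [if_neg (ns_hvhvh hb hn hb12), if_neg (ns_ihvh hb hn hb12),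
    show hp hb hn * vp hb hn * hp hb hn * vp hb hn * hp hb hn *
      ((hp hb hn)⁻¹ * (vp hb hn)⁻¹ * (hp hb hn)⁻¹)⁻¹ =
      hp hb hn * vp hb hn * hp hb hn * vp hb hn * hp hb hn * hp hb hn * vp hb hn * hp hb hn by group,
    if_neg (ns_hvhvhhvh hb hn hb12),
    show (hp hb hn)⁻¹ * (vp hb hn)⁻¹ * (hp hb hn)⁻¹ *
      (hp hb hn * vp hb hn * hp hb hn * vp hb hn * hp hb hn) = vp hb hn * hp hb hn by group,
    if_neg (ns_vh hb hn hb12),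
    show hp hb hn * vp hb hn * hp hb hn * vp hb hn * hp hb hn * hp hb hn * vp hb hn * hp hb hn *
      ((hp hb hn)⁻¹ * (vp hb hn)⁻¹ * (hp hb hn)⁻¹)⁻¹ =
      hp hb hn * vp hb hn * hp hb hn * vp hb hn * hp hb hn * hp hb hn * vp hb hn * hp hb hn *
        hp hb hn * vp hb hn * hp hb hn by group,
    if_neg (ns_e4 hb hn hb12)]

theorem c10 (hb12 : 12 ≤ b) (ha : n ≤ b + 4) :
    codeP (hp hb hn * vp hb hn * hp hb hn)
      ((hp hb hn)⁻¹ * (hp hb hn)⁻¹ * (vp hb hn)⁻¹ * (hp hb hn)⁻¹) = 9 := by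
  unfold codeP
  rw [if_neg (ns_hvh hb hn hb12), if_neg (ns_ihhvh hb hn hb12),
    show hp hb hn * vp hb hn * hp hb hn *
      ((hp hb hn)⁻¹ * (hp hb hn)⁻¹ * (vp hb hn)⁻¹ * (hp hb hn)⁻¹)⁻¹ =
      hp hb hn * vp hb hn * hp hb hn * hp hb hn * vp hb hn * hp hb hn * hp hb hn by
        simp only [mul_inv_rev, inv_inv, mul_assoc],
    if_neg (ns_hvhhvhh hb hn hb12),
    show (hp hb hn)⁻¹ * (hp hb hn)⁻¹ * (vp hb hn)⁻¹ * (hp hb hn)⁻¹ *
      (hp hb hn * vp hb hn * hp hb hn) = (hp hb hn)⁻¹ by group,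
    if_pos (small_h_inv hb hn ha),
    show hp hb hn * vp hb hn * hp hb hn *
      ((hp hb hn)⁻¹ * (hp hb hn)⁻¹ * (vp hb hn)⁻¹ * (hp hb hn)⁻¹) *
      (hp hb hn * vp hb hn * hp hb hn) = hp hb hn * vp hb hn by group,
    if_neg (n_hv hb hn)]

theorem c11 (ha : n ≤ b + 4) (ha' : b + 3 ≤ n) :
    codeP (hp hb hn)⁻¹ ((hp hb hn)⁻¹ * (vp hb hn)⁻¹ * (hp hb hn)⁻¹ * (hp hb hn)⁻¹) = 3 := by
  unfold codeP
  rw [if_pos (small_h_inv hb hn ha), if_neg (n_3 hb hn ha'),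
    show (hp hb hn)⁻¹ * (vp hb hn)⁻¹ * (hp hb hn)⁻¹ * (hp hb hn)⁻¹ * ((hp hb hn)⁻¹)⁻¹ =
      (hp hb hn)⁻¹ * (vp hb hn)⁻¹ * (hp hb hn)⁻¹ by group, if_neg (n_ihvh hb hn ha'),
    show (hp hb hn)⁻¹ * (vp hb hn)⁻¹ * (hp hb hn)⁻¹ * ((hp hb hn)⁻¹)⁻¹ =
      (hp hb hn)⁻¹ * (vp hb hn)⁻¹ by group, if_neg (n_hivi hb hn)]

/-- representatives of the twelve vertices -/
theorem verts_reps {n : ℕ} (h v : Perm (Fin n)) : verts (Ti (cls h v)) =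
    ![cls h (v * h), cls (h * v * h) (v * h), cls (h * v * h) h⁻¹, cls (v * h) h⁻¹,
      cls (v * h) (h⁻¹ * h⁻¹ * v⁻¹), cls h⁻¹ (h⁻¹ * v⁻¹ * h⁻¹), cls h v, cls (h * v) v,
      cls (h * v * h * v * h) (v * h), cls (h * v * h * v * h) (h⁻¹ * v⁻¹ * h⁻¹),
      cls (h * v * h) (h⁻¹ * h⁻¹ * v⁻¹ * h⁻¹), cls h⁻¹ (h⁻¹ * v⁻¹ * h⁻¹ * h⁻¹)] := by
  have e0 : Ti (cls h v) = cls h (v * h) := rfl
  have e1 : Si (Ti (cls h v)) = cls (h * v * h) (v * h) := by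
    rw [Ti_cls, Si_cls, mul_assoc]
  have e2 : T (Si (Ti (cls h v))) = cls (h * v * h) h⁻¹ := by
    rw [e1, T_cls, show v * h * (h * v * h)⁻¹ = h⁻¹ by group]
  have e3' : Si (T (Si (Ti (cls h v)))) = cls (h * v) h⁻¹ := by
    rw [e2, Si_cls, show h * v * h * h⁻¹ = h * v by group]
  have e3 : Si (T (Si (Ti (cls h v)))) = cls (v * h) h⁻¹ := by
    rw [e3']
    exact cls_eq (h := h * v) (v := h⁻¹) h⁻¹ (by group) (by group)
  have e4' : T (Si (T (Si (Ti (cls h v))))) = cls (h * v) (h⁻¹ * v⁻¹ * h⁻¹) := by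
    rw [e3', T_cls, show h⁻¹ * (h * v)⁻¹ = h⁻¹ * v⁻¹ * h⁻¹ by group]
  have e4 : T (Si (T (Si (Ti (cls h v))))) = cls (v * h) (h⁻¹ * h⁻¹ * v⁻¹) := by
    rw [e4']
    exact cls_eq (h := h * v) (v := h⁻¹ * v⁻¹ * h⁻¹) h⁻¹ (by group) (by group)
  have e5 : Si (T (Si (T (Si (Ti (cls h v)))))) = cls h⁻¹ (h⁻¹ * v⁻¹ * h⁻¹) := by
    rw [e4', Si_cls]
    exact cls_eq (h := h * v * (h⁻¹ * v⁻¹ * h⁻¹)) (v := h⁻¹ * v⁻¹ * h⁻¹)
      (h⁻¹ * (h * v)⁻¹) (by group) (by group)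
  have e6 : T (Ti (cls h v)) = cls h v := T_Ti _
  have e7 : Si (T (Ti (cls h v))) = cls (h * v) v := by rw [e6, Si_cls]
  have e8 : Si (Si (Ti (cls h v))) = cls (h * v * h * v * h) (v * h) := by
    rw [e1, Si_cls, show h * v * h * (v * h) = h * v * h * v * h by group]
  have e9 : T (Si (Si (Ti (cls h v)))) = cls (h * v * h * v * h) (h⁻¹ * v⁻¹ * h⁻¹) := by
    rw [e8, T_cls, show v * h * (h * v * h * v * h)⁻¹ = h⁻¹ * v⁻¹ * h⁻¹ by group]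
  have e10 : T (T (Si (Ti (cls h v)))) = cls (h * v * h) (h⁻¹ * h⁻¹ * v⁻¹ * h⁻¹) := by
    rw [e2, T_cls, show h⁻¹ * (h * v * h)⁻¹ = h⁻¹ * h⁻¹ * v⁻¹ * h⁻¹ by
      simp only [mul_inv_rev, mul_assoc]]
  have e11 : Si (T (T (Si (Ti (cls h v))))) = cls h⁻¹ (h⁻¹ * v⁻¹ * h⁻¹ * h⁻¹) := by
    rw [e10, Si_cls]
    exact cls_eq (h := h * v * h * (h⁻¹ * h⁻¹ * v⁻¹ * h⁻¹)) (v := h⁻¹ * h⁻¹ * v⁻¹ * h⁻¹)
      (h⁻¹ * (h * v)⁻¹) (by group) (by group)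
  unfold verts
  rw [e5, e4, e3, e9, e11, e10, e2, e8, e1, e7, e6, e0]

/-- the twelve vertices are distinct -/
theorem verts_inj_big (hb12 : 12 ≤ b) (ha : n ≤ b + 4) (ha' : b + 3 ≤ n) :
    Function.Injective (verts (Ti (cls (hp hb hn) (vp hb hn)))) := by
  have key : ∀ i : Fin 12, code (verts (Ti (cls (hp hb hn) (vp hb hn))) i) =
      (![1, 6, 5, 4, 8, 2, 0, 7, 10, 11, 9, 3] : Fin 12 → ℕ) i := by
    intro i
    rw [verts_reps]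
    fin_cases i
    · exact c0 hb hn ha
    · exact c1 hb hn hb12 ha
    · exact c2 hb hn hb12 ha
    · exact c3 hb hn hb12 ha
    · exact c4 hb hn hb12 ha
    · exact c5 hb hn ha ha'
    · exact c6 hb hn ha
    · exact c7 hb hn hb12 ha
    · exact c8 hb hn hb12 ha
    · exact c9 hb hn hb12
    · exact c10 hb hn hb12 ha
    · exact c11 hb hn ha ha'
  have hinj : Function.Injective (![1, 6, 5, 4, 8, 2, 0, 7, 10, 11, 9, 3] : Fin 12 → ℕ) := by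
    decide
  intro i j hij
  have h1 := congrArg code hij
  rw [key i, key j] at h1
  exact hinj h1

end Pool.Agent.V11212.OG
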