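import Mathlib
import Pool.Agent.V11212.OG.Codes

/-!
Twelve distinct vertices, short columns.
-/

set_option autoImplicit false

open Equiv

namespace Pool.Agent.V11212.OG

/-- numbers of moved points of five words -/
def code5P {n : ℕ} (x y : Perm (Fin n)) : List ℕ :=
  [(x * y * y).support.card, (x * y * x * y).support.card, (x * y * y * x⁻¹ * y⁻¹).support.card,
    (x * x * y * x⁻¹ * y⁻¹).support.card, x.support.card]

theorem code5P_conj {n : ℕ} (g x y : Perm (Fin n)) :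
    code5P (g * x * g⁻¹) (g * y * g⁻¹) = code5P x y := by
  unfold code5P
  rw [show (g * x * g⁻¹) * (g * y * g⁻¹) * (g * y * g⁻¹) * (g * x * g⁻¹)⁻¹ * (g * y * g⁻¹)⁻¹ =
      g * (x * y * y * x⁻¹ * y⁻¹) * g⁻¹ by group,
    show (g * x * g⁻¹) * (g * x * g⁻¹) * (g * y * g⁻¹) * (g * x * g⁻¹)⁻¹ * (g * y * g⁻¹)⁻¹ =
      g * (x * x * y * x⁻¹ * y⁻¹) * g⁻¹ by group,
    show (g * x * g⁻¹) * (g * y * g⁻¹) * (g * x * g⁻¹) * (g * y * g⁻¹) =
      g * (x * y * x * y) * g⁻¹ by group,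
    show (g * x * g⁻¹) * (g * y * g⁻¹) * (g * y * g⁻¹) = g * (x * y * y) * g⁻¹ by group]
  simp only [Perm.card_support_conj]

/-- the invariant of a class -/
def code5 {n : ℕ} : Pairs n → List ℕ :=
  Quotient.lift (fun p => code5P p.1 p.2) (by
    rintro ⟨h, v⟩ ⟨h', v'⟩ ⟨g, h1, h2⟩
    simp only at h1 h2 ⊢
    rw [h1, h2, code5P_conj])

/-- the representatives -/
def reps {n : ℕ} (h v : Perm (Fin n)) : Fin 12 → Perm (Fin n) × Perm (Fin n) :=
  ![(h, v * h), (h * v * h, v * h), (h * v * h, h⁻¹), (v * h, h⁻¹),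
      (v * h, h⁻¹ * h⁻¹ * v⁻¹), (h⁻¹, h⁻¹ * v⁻¹ * h⁻¹), (h, v), (h * v, v),
      (h * v * h * v * h, v * h), (h * v * h * v * h, h⁻¹ * v⁻¹ * h⁻¹),
      (h * v * h, h⁻¹ * h⁻¹ * v⁻¹ * h⁻¹), (h⁻¹, h⁻¹ * v⁻¹ * h⁻¹ * h⁻¹)]

theorem verts_reps' {n : ℕ} (h v : Perm (Fin n)) (i : Fin 12) :
    verts (Ti (cls h v)) i = cls (reps h v i).1 (reps h v i).2 := by
  rw [verts_reps]
  fin_cases i <;> rfl

theorem inj_of_code5 {n : ℕ} {h v : Perm (Fin n)} (L : Fin 12 → List ℕ)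
    (hL : ∀ i, code5P (reps h v i).1 (reps h v i).2 = L i) (hinj : Function.Injective L) :
    Function.Injective (verts (Ti (cls h v))) := by
  intro i j hij
  have h1 := congrArg code5 hij
  rw [verts_reps', verts_reps'] at h1
  have h2 : L i = L j := by rw [← hL i, ← hL j]; exact h1
  exact hinj h2

theorem inj_6_3 :
    Function.Injective (verts (Ti (cls (hp (n := 6) (b := 3) (by decide) (by decide))
      (vp (n := 6) (b := 3) (by decide) (by decide))))) :=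
  inj_of_code5 ![[6, 4, 5, 5, 4], [5, 6, 5, 6, 6], [3, 6, 5, 6, 6], [6, 3, 5, 5, 6], [6, 4, 6, 5, 6], [6, 6, 6, 5, 4], [6, 6, 4, 5, 4], [4, 6, 4, 5, 6], [6, 5, 5, 4, 6], [4, 6, 6, 4, 6], [3, 4, 5, 6, 6], [6, 3, 5, 5, 4]]
    (by decide) (by decide)

theorem inj_7_4 :
    Function.Injective (verts (Ti (cls (hp (n := 7) (b := 4) (by decide) (by decide))
      (vp (n := 7) (b := 4) (by decide) (by decide))))) :=
  inj_of_code5 ![[7, 5, 6, 5, 4], [6, 7, 6, 7, 7], [4, 7, 5, 7, 7], [7, 4, 5, 6, 7], [7, 4, 7, 6, 7], [7, 7, 7, 5, 4], [7, 7, 5, 5, 4], [7, 5, 5, 6, 7], [7, 0, 6, 6, 7], [4, 7, 7, 6, 7], [4, 4, 6, 7, 7], [7, 4, 6, 5, 4]]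
    (by decide) (by decide)

theorem inj_8_5 :
    Function.Injective (verts (Ti (cls (hp (n := 8) (b := 5) (by decide) (by decide))
      (vp (n := 8) (b := 5) (by decide) (by decide))))) :=
  inj_of_code5 ![[8, 6, 7, 5, 4], [7, 8, 7, 8, 8], [5, 8, 5, 8, 8], [8, 5, 5, 7, 8], [8, 4, 8, 7, 8], [8, 8, 8, 5, 4], [8, 8, 6, 5, 4], [8, 8, 6, 7, 8], [8, 7, 7, 7, 8], [4, 8, 8, 7, 8], [5, 4, 7, 8, 8], [8, 5, 7, 5, 4]]
    (by decide) (by decide)

theorem inj_9_6 :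
    Function.Injective (verts (Ti (cls (hp (n := 9) (b := 6) (by decide) (by decide))
      (vp (n := 9) (b := 6) (by decide) (by decide))))) :=
  inj_of_code5 ![[9, 7, 8, 5, 4], [8, 9, 8, 9, 9], [6, 9, 5, 9, 9], [9, 6, 5, 8, 9], [9, 4, 9, 8, 9], [9, 9, 9, 5, 4], [9, 9, 7, 5, 4], [9, 9, 7, 8, 9], [9, 8, 8, 8, 9], [4, 9, 9, 8, 9], [6, 4, 8, 9, 9], [9, 6, 8, 5, 4]]
    (by decide) (by decide)

theorem inj_10_7 :
    Function.Injective (verts (Ti (cls (hp (n := 10) (b := 7) (by decide) (by decide))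
      (vp (n := 10) (b := 7) (by decide) (by decide))))) :=
  inj_of_code5 ![[10, 8, 9, 5, 4], [9, 10, 9, 10, 10], [7, 10, 5, 10, 10], [10, 7, 5, 9, 10], [10, 4, 10, 9, 10], [10, 10, 10, 5, 4], [10, 10, 8, 5, 4], [10, 10, 8, 9, 10], [10, 9, 9, 9, 10], [4, 10, 10, 9, 10], [7, 4, 9, 10, 10], [10, 7, 9, 5, 4]]
    (by decide) (by decide)

theorem inj_11_8 :
    Function.Injective (verts (Ti (cls (hp (n := 11) (b := 8) (by decide) (by decide))
      (vp (n := 11) (b := 8) (by decide) (by decide))))) :=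
  inj_of_code5 ![[11, 9, 10, 5, 4], [10, 11, 10, 11, 11], [8, 11, 5, 11, 11], [11, 8, 5, 10, 11], [11, 4, 11, 10, 11], [11, 11, 11, 5, 4], [11, 11, 9, 5, 4], [11, 11, 9, 10, 11], [11, 10, 10, 10, 11], [4, 11, 11, 10, 11], [8, 4, 10, 11, 11], [11, 8, 10, 5, 4]]
    (by decide) (by decide)

theorem inj_12_9 :
    Function.Injective (verts (Ti (cls (hp (n := 12) (b := 9) (by decide) (by decide))
      (vp (n := 12) (b := 9) (by decide) (by decide))))) :=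
  inj_of_code5 ![[12, 10, 11, 5, 4], [11, 12, 11, 12, 12], [9, 12, 5, 12, 12], [12, 9, 5, 11, 12], [12, 4, 12, 11, 12], [12, 12, 12, 5, 4], [12, 12, 10, 5, 4], [12, 12, 10, 11, 12], [12, 11, 11, 11, 12], [4, 12, 12, 11, 12], [9, 4, 11, 12, 12], [12, 9, 11, 5, 4]]
    (by decide) (by decide)

theorem inj_13_10 :
    Function.Injective (verts (Ti (cls (hp (n := 13) (b := 10) (by decide) (by decide))
      (vp (n := 13) (b := 10) (by decide) (by decide))))) :=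
  inj_of_code5 ![[13, 11, 12, 5, 4], [12, 13, 12, 13, 13], [10, 13, 5, 13, 13], [13, 10, 5, 12, 13], [13, 4, 13, 12, 13], [13, 13, 13, 5, 4], [13, 13, 11, 5, 4], [13, 13, 11, 12, 13], [13, 12, 12, 12, 13], [4, 13, 13, 12, 13], [10, 4, 12, 13, 13], [13, 10, 12, 5, 4]]
    (by decide) (by decide)

theorem inj_14_11 :
    Function.Injective (verts (Ti (cls (hp (n := 14) (b := 11) (by decide) (by decide))
      (vp (n := 14) (b := 11) (by decide) (by decide))))) :=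
  inj_of_code5 ![[14, 12, 13, 5, 4], [13, 14, 13, 14, 14], [11, 14, 5, 14, 14], [14, 11, 5, 13, 14], [14, 4, 14, 13, 14], [14, 14, 14, 5, 4], [14, 14, 12, 5, 4], [14, 14, 12, 13, 14], [14, 13, 13, 13, 14], [4, 14, 14, 13, 14], [11, 4, 13, 14, 14], [14, 11, 13, 5, 4]]
    (by decide) (by decide)

theorem inj_7_3 :
    Function.Injective (verts (Ti (cls (hp (n := 7) (b := 3) (by decide) (by decide))
      (vp (n := 7) (b := 3) (by decide) (by decide))))) :=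
  inj_of_code5 ![[7, 7, 6, 6, 5], [7, 7, 6, 7, 7], [3, 7, 6, 7, 7], [7, 3, 6, 6, 7], [7, 5, 7, 6, 7], [4, 7, 7, 6, 5], [7, 7, 4, 6, 5], [5, 7, 4, 6, 7], [6, 3, 6, 6, 7], [5, 7, 7, 6, 7], [7, 5, 7, 7, 7], [7, 7, 7, 6, 5]]
    (by decide) (by decide)

theorem inj_9_5 :
    Function.Injective (verts (Ti (cls (hp (n := 9) (b := 5) (by decide) (by decide))
      (vp (n := 9) (b := 5) (by decide) (by decide))))) :=
  inj_of_code5 ![[9, 9, 8, 6, 5], [9, 9, 8, 9, 9], [5, 9, 6, 9, 9], [9, 5, 6, 8, 9], [9, 5, 9, 8, 9], [6, 9, 9, 6, 5], [9, 9, 6, 6, 5], [9, 9, 6, 8, 9], [8, 9, 8, 9, 9], [5, 9, 9, 9, 9], [9, 5, 9, 9, 9], [9, 9, 9, 6, 5]]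
    (by decide) (by decide)

theorem inj_11_7 :
    Function.Injective (verts (Ti (cls (hp (n := 11) (b := 7) (by decide) (by decide))
      (vp (n := 11) (b := 7) (by decide) (by decide))))) :=
  inj_of_code5 ![[11, 11, 10, 6, 5], [11, 11, 10, 11, 11], [7, 11, 6, 11, 11], [11, 7, 6, 10, 11], [11, 5, 11, 10, 11], [8, 11, 11, 6, 5], [11, 11, 8, 6, 5], [11, 11, 8, 10, 11], [10, 11, 10, 11, 11], [5, 11, 11, 11, 11], [11, 5, 11, 11, 11], [11, 11, 11, 6, 5]]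
    (by decide) (by decide)

theorem inj_13_9 :
    Function.Injective (verts (Ti (cls (hp (n := 13) (b := 9) (by decide) (by decide))
      (vp (n := 13) (b := 9) (by decide) (by decide))))) :=
  inj_of_code5 ![[13, 13, 12, 6, 5], [13, 13, 12, 13, 13], [9, 13, 6, 13, 13], [13, 9, 6, 12, 13], [13, 5, 13, 12, 13], [10, 13, 13, 6, 5], [13, 13, 10, 6, 5], [13, 13, 10, 12, 13], [12, 13, 12, 13, 13], [5, 13, 13, 13, 13], [13, 5, 13, 13, 13], [13, 13, 13, 6, 5]]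
    (by decide) (by decide)

theorem inj_15_11 :
    Function.Injective (verts (Ti (cls (hp (n := 15) (b := 11) (by decide) (by decide))
      (vp (n := 15) (b := 11) (by decide) (by decide))))) :=
  inj_of_code5 ![[15, 15, 14, 6, 5], [15, 15, 14, 15, 15], [11, 15, 6, 15, 15], [15, 11, 6, 14, 15], [15, 5, 15, 14, 15], [12, 15, 15, 6, 5], [15, 15, 12, 6, 5], [15, 15, 12, 14, 15], [14, 15, 14, 15, 15], [5, 15, 15, 15, 15], [15, 5, 15, 15, 15], [15, 15, 15, 6, 5]]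
    (by decide) (by decide)

end Pool.Agent.V11212.OG
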