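import Mathlib
import Pool.Agent.V11212.OG.Small

/-!
The orbits with four and five squares.
-/

set_option autoImplicit false

open Equiv

namespace Pool.Agent.V11212.OG

set_option maxRecDepth 20000 in
theorem inj_5 : Function.Injective (verts (Ti (T (S (T (cls
    (hp (n := 5) (b := 2) (by decide) (by decide))
    (vp (n := 5) (b := 2) (by decide) (by decide)))))))) :=
  inj_of_code5 (h := hp (n := 5) (b := 2) (by decide) (by decide) *
      (vp (n := 5) (b := 2) (by decide) (by decide) *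
        (hp (n := 5) (b := 2) (by decide) (by decide))⁻¹)⁻¹)
    (v := vp (n := 5) (b := 2) (by decide) (by decide) *
      (hp (n := 5) (b := 2) (by decide) (by decide))⁻¹ *
      (hp (n := 5) (b := 2) (by decide) (by decide) *
      (vp (n := 5) (b := 2) (by decide) (by decide) *
        (hp (n := 5) (b := 2) (by decide) (by decide))⁻¹)⁻¹)⁻¹)
    ![[2, 4, 3, 4, 5], [4, 0, 3, 5, 4], [5, 5, 4, 5, 4], [4, 3, 4, 3, 5], [5, 3, 5, 3, 5],
      [2, 5, 5, 4, 5], [4, 5, 4, 4, 5], [5, 4, 4, 3, 5], [5, 4, 3, 2, 2], [5, 5, 5, 2, 2],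
      [5, 3, 3, 5, 4], [4, 3, 3, 4, 5]]
    (by decide) (by decide)

/-- the row of the origami with four squares -/
def h4 : Perm (Fin 4) := hp (n := 4) (b := 2) (by decide) (by decide)

/-- the column of the origami with four squares -/
def v4 : Perm (Fin 4) := vp (n := 4) (b := 2) (by decide) (by decide)

/-- numbers of moved points of four words -/
def code4P {n : ℕ} (x y : Perm (Fin n)) : List ℕ :=
  [x.support.card, y.support.card, (x * y).support.card, (x * y⁻¹).support.card]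

theorem code4P_conj {n : ℕ} (g x y : Perm (Fin n)) :
    code4P (g * x * g⁻¹) (g * y * g⁻¹) = code4P x y := by
  unfold code4P
  rw [show (g * x * g⁻¹) * (g * y * g⁻¹)⁻¹ = g * (x * y⁻¹) * g⁻¹ by group,
    show (g * x * g⁻¹) * (g * y * g⁻¹) = g * (x * y) * g⁻¹ by group]
  simp only [Perm.card_support_conj]

/-- the invariant of a class -/
def code4 {n : ℕ} : Pairs n → List ℕ :=
  Quotient.lift (fun p => code4P p.1 p.2) (by
    rintro ⟨h, v⟩ ⟨h', v'⟩ ⟨g, h1, h2⟩
    simp only at h1 h2 ⊢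
    rw [h1, h2, code4P_conj])

/-- eight vertices -/
def verts4 (O : Pairs 4) : Fin 8 → Pairs 4 :=
  ![O, T O, S O, Ti O, S (T O), Si (T O), T (S O), T (Si (T O))]

theorem verts4_mem {O P : Pairs 4} (h : SameOrbit O P) (i : Fin 8) : SameOrbit O (verts4 P i) := by
  fin_cases i
  · exact h
  · exact so_T h
  · exact so_S h
  · exact so_Ti h
  · exact so_S (so_T h)
  · exact so_Si (so_T h)
  · exact so_T (so_S h)
  · exact so_T (so_Si (so_T h))

theorem code_verts4 : ∀ i, code4 (verts4 (cls h4 v4) i) =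
    (![[3, 2, 4, 4], [3, 4, 2, 4], [4, 2, 3, 3], [3, 4, 4, 2], [4, 4, 3, 3], [2, 4, 3, 3],
      [4, 3, 2, 4], [2, 3, 4, 4]] : Fin 8 → List ℕ) i := by
  decide

theorem verts4_inj : Function.Injective (verts4 (cls h4 v4)) := by
  have hinj : Function.Injective (![[3, 2, 4, 4], [3, 4, 2, 4], [4, 2, 3, 3], [3, 4, 4, 2],
    [4, 4, 3, 3], [2, 4, 3, 3], [4, 3, 2, 4], [2, 3, 4, 4]] : Fin 8 → List ℕ) := by decide
  intro i j hij
  have h1 := congrArg code4 hij
  rw [code_verts4, code_verts4] at h1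
  exact hinj h1

/-- a conjugating permutation -/
def g1 : Perm (Fin 4) := ⟨![2, 0, 1, 3], ![1, 2, 0, 3], by decide, by decide⟩

/-- a conjugating permutation -/
def g2 : Perm (Fin 4) := ⟨![1, 2, 0, 3], ![2, 0, 1, 3], by decide, by decide⟩

theorem rel1 : S (S (T (cls h4 v4))) = Ti (cls h4 v4) := by
  simp only [T_cls, S_cls, Ti_cls]
  exact cls_eq g1 (by decide) (by decide)

theorem rel2 : T (T (S (cls h4 v4))) = S (T (cls h4 v4)) := by
  simp only [T_cls, S_cls]
  exact cls_eq g1 (by decide) (by decide)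

theorem rel3 : S (Ti (cls h4 v4)) = Si (T (cls h4 v4)) := by
  simp only [T_cls, S_cls, Ti_cls, Si_cls]
  exact cls_eq g2 (by decide) (by decide)

theorem rel4 : S (T (Si (T (cls h4 v4)))) = T (S (cls h4 v4)) := by
  simp only [T_cls, S_cls, Si_cls]
  exact cls_eq 1 (by decide) (by decide)

theorem minor4 {O : Pairs 4} (h0 : SameOrbit O (cls h4 v4)) :
    HasLocalMinor K33 (orbitGraph O) 2 := by
  let u : Fin 8 → {P : Pairs 4 // SameOrbit O P} :=
    fun i => ⟨verts4 (cls h4 v4) i, verts4_mem h0 i⟩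
  have hu : ∀ i j, i ≠ j → u i ≠ u j := by
    intro i j hij he
    exact hij (verts4_inj (congrArg Subtype.val he))
  have adjT : ∀ i j, i ≠ j → verts4 (cls h4 v4) j = T (verts4 (cls h4 v4) i) →
      (orbitGraph O).Adj (u i) (u j) :=
    fun i j hij he => ⟨hu i j hij, Or.inl he⟩
  have adjS : ∀ i j, i ≠ j → verts4 (cls h4 v4) j = S (verts4 (cls h4 v4) i) →
      (orbitGraph O).Adj (u i) (u j) :=
    fun i j hij he => ⟨hu i j hij, Or.inr (Or.inl he)⟩
  have e01 := adjT 0 1 (by decide) rfl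
  have e30 := adjT 3 0 (by decide) (T_Ti _).symm
  have e02 := adjS 0 2 (by decide) rfl
  have e14 := adjS 1 4 (by decide) rfl
  have e43 := adjS 4 3 (by decide) rel1.symm
  have e64 := adjT 6 4 (by decide) rel2.symm
  have e51 := adjS 5 1 (by decide) (S_Si _).symm
  have e35 := adjS 3 5 (by decide) rel3.symm
  have e76 := adjS 7 6 (by decide) rel4.symm
  have e57 := adjT 5 7 (by decide) rfl
  have e26 := adjT 2 6 (by decide) rfl
  have hdis : ∀ a b c d : Fin 8, a ≠ c → a ≠ d → b ≠ c → b ≠ d →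
      Disjoint ({u a, u b} : Set {P : Pairs 4 // SameOrbit O P}) {u c, u d} := by
    intro a b c d h1 h2 h3 h4
    rw [Set.disjoint_left]
    rintro x (rfl | rfl) (h | h)
    · exact hu _ _ h1 h
    · exact hu _ _ h2 h
    · exact hu _ _ h3 h
    · exact hu _ _ h4 h
  refine minor_of (orbitGraph O) ![(u 0, u 0), (u 4, u 4), (u 5, u 7)]
    ![(u 1, u 1), (u 3, u 3), (u 2, u 6)] ?_ ?_ ?_ ?_ ?_ ?_
  · intro i
    fin_cases i
    · exact Or.inl rfl
    · exact Or.inl rfl
    · exact Or.inr e57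
  · intro i
    fin_cases i
    · exact Or.inl rfl
    · exact Or.inl rfl
    · exact Or.inr e26
  · intro i j hij
    fin_cases i <;> fin_cases j <;> first | exact absurd rfl hij | exact hdis _ _ _ _ (by decide) (by decide) (by decide) (by decide)
  · intro i j hij
    fin_cases i <;> fin_cases j <;> first | exact absurd rfl hij | exact hdis _ _ _ _ (by decide) (by decide) (by decide) (by decide)
  · intro i j
    fin_cases i <;> fin_cases j <;> exact hdis _ _ _ _ (by decide) (by decide) (by decide) (by decide)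
  · intro i j
    fin_cases i <;> fin_cases j
    · exact ⟨u 0, Or.inl rfl, u 1, Or.inl rfl, e01⟩
    · exact ⟨u 0, Or.inl rfl, u 3, Or.inl rfl, e30.symm⟩
    · exact ⟨u 0, Or.inl rfl, u 2, Or.inl rfl, e02⟩
    · exact ⟨u 4, Or.inl rfl, u 1, Or.inl rfl, e14.symm⟩
    · exact ⟨u 4, Or.inl rfl, u 3, Or.inl rfl, e43⟩
    · exact ⟨u 4, Or.inl rfl, u 6, Or.inr rfl, e64.symm⟩
    · exact ⟨u 5, Or.inl rfl, u 1, Or.inl rfl, e51⟩
    · exact ⟨u 5, Or.inl rfl, u 3, Or.inl rfl, e35.symm⟩
    · exact ⟨u 7, Or.inr rfl, u 6, Or.inr rfl, e76⟩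

end Pool.Agent.V11212.OG
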