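import Mathlib
import Pool.Agent.V11212.OG.Tiny

/-!
All orbits.
-/

set_option autoImplicit false

open Equiv

namespace Pool.Agent.V11212.OG

/-- primitive origamis in the stratum `H(2)`: the group generated by `h` and `v` is a primitive
permutation group and the commutator is a single 3-cycle -/
def PrimH2 {n : ℕ} (h v : Perm (Fin n)) : Prop :=
  MulAction.IsPreprimitive (Subgroup.closure {h, v}) (Fin n) ∧ (h * v * h⁻¹ * v⁻¹).IsThreeCycle

theorem primH2 {n b : ℕ} (hb : 2 ≤ b) (hn : b < n) : PrimH2 (hp hb hn) (vp hb hn) :=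
  ⟨preprimitive hb hn, comm_three hb hn⟩

theorem nu_fix {n b : ℕ} (hb : 2 ≤ b) (hn : b < n) :
    nu (cls (hp hb hn) (vp hb hn)) = cls (hp hb hn) (vp hb hn) := by
  rw [nu_cls]
  exact (cls_eq (ip hb hn) (ip_h hb hn) (ip_v hb hn)).symm

theorem so_symm {n : ℕ} {P Q : Pairs n} (h : SameOrbit P Q) : SameOrbit Q P :=
  Relation.EqvGen.symm _ _ h

/-- the minor, from twelve distinct vertices around a vertex of the orbit -/
theorem minor_from {n b : ℕ} (hb : 2 ≤ b) (hn : b < n) {O P : Pairs n}
    (h : SameOrbit O (cls (hp hb hn) (vp hb hn))) (hP : SameOrbit O P)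
    (hinj : Function.Injective (verts P)) : HasLocalMinor K33 (orbitGraph O) 2 :=
  ball_minor hP ((nu_orbit h).2 (nu_fix hb hn)) hinj

theorem inj_A (n : ℕ) (h6 : 6 ≤ n) : Function.Injective (verts (Ti (cls
    (hp (n := n) (b := n - 3) (by omega) (by omega))
    (vp (n := n) (b := n - 3) (by omega) (by omega))))) := by
  rcases lt_or_ge n 15 with h | h
  · interval_cases n
    · exact inj_6_3
    · exact inj_7_4
    · exact inj_8_5
    · exact inj_9_6
    · exact inj_10_7
    · exact inj_11_8
    · exact inj_12_9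
    · exact inj_13_10
    · exact inj_14_11
  · exact verts_inj_big _ _ (by omega) (by omega) (by omega)

theorem inj_B (n : ℕ) (h7 : 7 ≤ n) (hodd : Odd n) : Function.Injective (verts (Ti (cls
    (hp (n := n) (b := n - 4) (by omega) (by omega))
    (vp (n := n) (b := n - 4) (by omega) (by omega))))) := by
  rcases lt_or_ge n 16 with h | h
  · interval_cases n
    · exact inj_7_3
    · exact absurd hodd (by decide)
    · exact inj_9_5
    · exact absurd hodd (by decide)
    · exact inj_11_7
    · exact absurd hodd (by decide)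
    · exact inj_13_9
    · exact absurd hodd (by decide)
    · exact inj_15_11
  · exact verts_inj_big _ _ (by omega) (by omega) (by omega)

/-- origamis with symmetric monodromy group -/
theorem main_A (n : ℕ) (h6 : 6 ≤ n) : ∃ h v : Perm (Fin n), PrimH2 h v ∧
    Subgroup.closure {h, v} = ⊤ ∧
    ∀ O, SameOrbit O (cls h v) → HasLocalMinor K33 (orbitGraph O) 2 := by
  refine ⟨hp (n := n) (b := n - 3) (by omega) (by omega),
    vp (n := n) (b := n - 3) (by omega) (by omega), primH2 _ _, ?_, ?_⟩
  · apply mon_top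
    rw [h_sign, show n - (n - 3) + 1 = 4 by omega]
    rfl
  · intro O hO
    exact minor_from _ _ hO (so_Ti hO) (inj_A n h6)

/-- origamis with alternating monodromy group -/
theorem main_B (n : ℕ) (h7 : 7 ≤ n) (hodd : Odd n) : ∃ h v : Perm (Fin n), PrimH2 h v ∧
    Subgroup.closure {h, v} = alternatingGroup (Fin n) ∧
    ∀ O, SameOrbit O (cls h v) → HasLocalMinor K33 (orbitGraph O) 2 := by
  refine ⟨hp (n := n) (b := n - 4) (by omega) (by omega),
    vp (n := n) (b := n - 4) (by omega) (by omega), primH2 _ _, ?_, ?_⟩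
  · apply mon_alt
    · rw [h_sign, show n - (n - 4) + 1 = 5 by omega]
      rfl
    · rw [v_sign]
      obtain ⟨k, hk⟩ := hodd
      rw [show n - 4 = 2 * (k - 2) + 1 by omega, pow_succ, pow_mul]
      norm_num
  · intro O hO
    exact minor_from _ _ hO (so_Ti hO) (inj_B n h7 hodd)

/-- five squares, symmetric monodromy group -/
theorem main_5 : ∃ h v : Perm (Fin 5), PrimH2 h v ∧ Subgroup.closure {h, v} = ⊤ ∧
    ∀ O, SameOrbit O (cls h v) → HasLocalMinor K33 (orbitGraph O) 2 := by
  refine ⟨hp (n := 5) (b := 2) (by decide) (by decide),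
    vp (n := 5) (b := 2) (by decide) (by decide), primH2 _ _, ?_, ?_⟩
  · apply mon_top
    rw [h_sign]
    rfl
  · intro O hO
    exact minor_from _ _ hO (so_Ti (so_T (so_S (so_T hO)))) inj_5

/-- four squares -/
theorem main_4 : ∃ h v : Perm (Fin 4), PrimH2 h v ∧
    ∀ O, SameOrbit O (cls h v) → HasLocalMinor K33 (orbitGraph O) 2 :=
  ⟨h4, v4, primH2 _ _, fun _ hO => minor4 hO⟩

end Pool.Agent.V11212.OG
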